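import Pool.Agent.Q271.KT.Trace

/-! Graphs without `K_{s,t}`, `2 ≤ s`: hereditary bound and trace bound; the balanced expander form. -/

set_option autoImplicit false

open Finset

namespace Pool.Agent.Q271.KT

open Pool.Agent.Q115.GV Q116.KR

theorem good_kst (s t : ℕ) (hs : 2 ≤ s) (ht : 1 ≤ t) :
    Good (KK s t) (1 - 1 / (s : ℝ)) (2 * s + 2 * t) 2
      (fun K => K ^ 2 + 2 * (t : ℝ) ^ 2 + (2 * (((s - 2 : ℕ) : ℝ) + 1) ^ 2) ^ (s - 2 + 1) * K ^ 2) := by
  classical
  refine ⟨?_, ?_⟩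
  · intro V _ _ G _ hfree X
    exact Pool.Agent.Q115.GZ.her_kst G hs ht hfree X
  · intro V _ H hfree K hK hdeg
    rcases isEmpty_or_nonempty V with hemp | hne
    · simp only [univ_eq_empty, sum_empty]
      positivity
    obtain ⟨k, hk⟩ : ∃ k, s = k + 2 := ⟨s - 2, by omega⟩
    have hk2 : s - 2 = k := by omega
    have hs0 : (0 : ℝ) < s := by
      have : 0 < s := by omega
      exact_mod_cast this
    have hmpos : (1 : ℝ) ≤ (Fintype.card V : ℝ) := by exact_mod_cast Fintype.card_pos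
    set m : ℝ := (Fintype.card V : ℝ) with hm
    set r : ℝ := m ^ (1 / (s : ℝ)) with hr
    have hr1 : 1 ≤ r := Real.one_le_rpow hmpos (by positivity)
    have hr0 : 0 < r := by linarith
    have hrs : r ^ s = m := by
      rw [hr, ← Real.rpow_natCast, ← Real.rpow_mul (by linarith), one_div_mul_cancel hs0.ne',
        Real.rpow_one]
    have hα : m ^ (1 - 1 / (s : ℝ)) = r ^ (k + 1) := by
      rw [Real.rpow_sub (by linarith), Real.rpow_one, ← hr]
      rw [div_eq_iff hr0.ne', ← pow_succ, ← hrs, hk]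
    have hno : NoST H.Adj s t := noST_of_free hfree
    have hx : ∀ x, (nw H (2 * 2) x x : ℝ) ≤
        (K ^ 2 + 2 * (t : ℝ) ^ 2 + (2 * ((k : ℝ) + 1) ^ 2) ^ (k + 1) * K ^ 2) *
          r ^ (3 * k + 2) := by
      intro x
      have h1 := W_one_le H k hk ht hno K r hK hr1 (by rw [← hk]; exact hrs) x (by
        have h2 := hdeg x
        rw [hα] at h2
        rwa [Set.ncard_eq_toFinset_card', ← SimpleGraph.neighborFinset_def,
          SimpleGraph.card_neighborFinset_eq_degree] at h2)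
      have h3 : nw H (2 * 2) x x = W H x 1 := nw_four H x
      rw [h3]
      exact h1
    rw [hα, hk2]
    calc ∑ x, (nw H (2 * 2) x x : ℝ)
        ≤ ∑ _x : V, (K ^ 2 + 2 * (t : ℝ) ^ 2 + (2 * ((k : ℝ) + 1) ^ 2) ^ (k + 1) * K ^ 2) *
          r ^ (3 * k + 2) := sum_le_sum (fun x _ => hx x)
      _ = (K ^ 2 + 2 * (t : ℝ) ^ 2 + (2 * ((k : ℝ) + 1) ^ 2) ^ (k + 1) * K ^ 2) *
          (m * r ^ (3 * k + 2)) := by
          rw [sum_const, card_univ, nsmul_eq_mul]
          ring
      _ = _ := by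
          congr 1
          rw [← hrs, hk, ← pow_add, ← pow_mul]
          congr 1
          ring

end Pool.Agent.Q271.KT
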