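import Pool.Agent.Q115.GV3
import Pool.Agent.Q115.GZ1

/-! Graphs without `K_{s,t}`, `2 ≤ s`: trace bound for closed walks of length `4`. -/

set_option autoImplicit false

open Finset

namespace Pool.Agent.Q271.KT

open Pool.Agent.Q115.GV Q116.KR

variable {V : Type} [Fintype V] [DecidableEq V] (H : SimpleGraph V) [DecidableRel H.Adj]

/-- common neighbours of `x` and all `f i` -/
def CN (x : V) {m : ℕ} (f : Fin m → V) : Finset V :=
  univ.filter (fun u => H.Adj x u ∧ ∀ i, H.Adj (f i) u)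

/-- number of common neighbours -/
def cod (u v : V) : ℕ := (univ.filter (fun y => H.Adj u y ∧ H.Adj v y)).card

/-- the moment -/
def W (x : V) (m : ℕ) : ℕ := ∑ f : Fin m → V, (CN H x f).card ^ 2

theorem W_eq (x : V) (m : ℕ) : W H x m =
    ∑ u ∈ H.neighborFinset x, ∑ v ∈ H.neighborFinset x, cod H u v ^ m := by
  have h1 : ∀ f : Fin m → V, (CN H x f).card ^ 2 =
      ∑ u ∈ H.neighborFinset x, ∑ v ∈ H.neighborFinset x,
        if (∀ i, H.Adj u (f i) ∧ H.Adj v (f i)) then 1 else 0 := by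
    intro f
    have e : CN H x f = (H.neighborFinset x).filter (fun u => ∀ i, H.Adj u (f i)) := by
      ext u
      simp only [CN, mem_filter, mem_univ, true_and, SimpleGraph.mem_neighborFinset]
      constructor
      · rintro ⟨a, b⟩
        exact ⟨a, fun i => (b i).symm⟩
      · rintro ⟨a, b⟩
        exact ⟨a, fun i => (b i).symm⟩
    rw [e, sq, card_filter, sum_mul_sum]
    apply sum_congr rfl
    intro u _
    apply sum_congr rfl
    intro v _
    by_cases hu : ∀ i, H.Adj u (f i)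
    · by_cases hv : ∀ i, H.Adj v (f i)
      · rw [if_pos hu, if_pos hv, if_pos (fun i => ⟨hu i, hv i⟩), one_mul]
      · rw [if_pos hu, if_neg hv, if_neg (fun h : ∀ i, H.Adj u (f i) ∧ H.Adj v (f i) =>
          hv (fun i => (h i).2)), one_mul]
    · rw [if_neg hu, if_neg (fun h : ∀ i, H.Adj u (f i) ∧ H.Adj v (f i) =>
        hu (fun i => (h i).1)), zero_mul]
  unfold W
  rw [sum_congr rfl (fun f _ => h1 f), sum_comm]
  apply sum_congr rfl
  intro u _
  rw [sum_comm]
  apply sum_congr rfl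
  intro v _
  rw [← card_filter]
  have : univ.filter (fun f : Fin m → V => ∀ i, H.Adj u (f i) ∧ H.Adj v (f i)) =
      Fintype.piFinset (fun _ : Fin m => univ.filter (fun y => H.Adj u y ∧ H.Adj v y)) := by
    ext f
    simp [Fintype.mem_piFinset]
  rw [this, Fintype.card_piFinset]
  simp [cod]

/-- tuples with pairwise different entries -/
theorem CN_card_le {s t : ℕ} (k : ℕ) (hs : s = k + 1) (ht : 1 ≤ t) (hH : NoST H.Adj s t) (x : V)
    (f : Fin k → V) (hf : Function.Injective (Fin.cons x f : Fin (k + 1) → V)) :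
    (CN H x f).card ≤ t - 1 := by
  subst hs
  by_contra hcon
  have hcard : t ≤ (CN H x f).card := by omega
  obtain ⟨b, hb⟩ : ∃ b : Fin t → V, Function.Injective b ∧ ∀ j, b j ∈ CN H x f := by
    obtain ⟨T, hT1, hT2⟩ := exists_subset_card_eq hcard
    have e : Fin t ≃ T := (Fintype.equivFinOfCardEq (by rw [Fintype.card_coe, hT2])).symm
    exact ⟨fun j => (e j).1, fun i j h => e.injective (Subtype.ext h), fun j => hT1 (e j).2⟩
  refine hH ⟨Fin.cons x f, b, hf, hb.1, ?_⟩
  intro i j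
  have h := hb.2 j
  simp only [CN, mem_filter, mem_univ, true_and] at h
  refine Fin.cases ?_ (fun i => ?_) i
  · simpa using h.1
  · simpa using h.2 i

/-- value of a repeated entry -/
def val (x : V) {k : ℕ} (g : Fin k → V) : Option (Fin k) → V
  | none => x
  | some j => g j

theorem W_step {s t : ℕ} (k : ℕ) (hs : s = k + 2) (ht : 1 ≤ t) (hH : NoST H.Adj s t) (x : V) :
    W H x (k + 1) ≤ (t - 1) ^ 2 * (Fintype.card V) ^ (k + 1) + (k + 1) ^ 2 * W H x k := by
  classical
  set I : Finset (Fin (k + 1) → V) :=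
    univ.filter (fun f => Function.Injective (Fin.cons x f : Fin (k + 2) → V)) with hI
  unfold W
  rw [← sum_filter_add_sum_filter_not univ
    (fun f : Fin (k + 1) → V => Function.Injective (Fin.cons x f : Fin (k + 2) → V))]
  apply add_le_add
  · calc ∑ f ∈ univ.filter (fun f : Fin (k + 1) → V =>
          Function.Injective (Fin.cons x f : Fin (k + 2) → V)), (CN H x f).card ^ 2
        ≤ ∑ f ∈ univ.filter (fun f : Fin (k + 1) → V =>
          Function.Injective (Fin.cons x f : Fin (k + 2) → V)), (t - 1) ^ 2 := by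
          apply sum_le_sum
          intro f hf
          apply Nat.pow_le_pow_left
          exact CN_card_le H (k + 1) hs ht hH x f (mem_filter.1 hf).2
      _ ≤ ∑ f : Fin (k + 1) → V, (t - 1) ^ 2 := by
          apply sum_le_sum_of_subset
          exact filter_subset _ _
      _ = _ := by
          rw [sum_const, card_univ, smul_eq_mul]
          simp only [Fintype.card_pi, prod_const, card_univ, Fintype.card_fin]
          ring
  · -- the repeated tuples
    set Φ : Fin (k + 1) × Option (Fin k) × (Fin k → V) → (Fin (k + 1) → V) :=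
      fun p => p.1.insertNth (α := fun _ => V) (val x p.2.2 p.2.1) p.2.2 with hΦ
    have hsub : univ.filter (fun f : Fin (k + 1) → V =>
        ¬ Function.Injective (Fin.cons x f : Fin (k + 2) → V)) ⊆ univ.image Φ := by
      intro f hf
      rw [mem_filter] at hf
      have hni := hf.2
      rw [Fin.cons_injective_iff] at hni
      rw [mem_image]
      by_cases hx : x ∈ Set.range f
      · obtain ⟨i, hi⟩ := hx
        refine ⟨(i, none, fun j => f (i.succAbove j)), mem_univ _, ?_⟩
        show i.insertNth x (fun j => f (i.succAbove j)) = f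
        rw [← hi]
        exact Fin.insertNth_self_removeNth i f
      · have hni' : ¬ Function.Injective f := fun h => hni ⟨hx, h⟩
        obtain ⟨a, b, hab, hne⟩ : ∃ a b, f a = f b ∧ a ≠ b := by
          simp only [Function.Injective, not_forall] at hni'
          obtain ⟨a, b, h1, h2⟩ := hni'
          exact ⟨a, b, h1, h2⟩
        obtain ⟨j, hj⟩ := Fin.exists_succAbove_eq (x := b) (y := a) (Ne.symm hne)
        refine ⟨(a, some j, fun j => f (a.succAbove j)), mem_univ _, ?_⟩
        show a.insertNth (f (a.succAbove j)) (fun j => f (a.succAbove j)) = f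
        rw [hj, ← hab]
        exact Fin.insertNth_self_removeNth a f
    have hCN : ∀ p, CN H x (Φ p) = CN H x p.2.2 := by
      rintro ⟨i, c, g⟩
      ext u
      simp only [CN, mem_filter, mem_univ, true_and, hΦ]
      constructor
      · rintro ⟨h1, h2⟩
        refine ⟨h1, fun j => ?_⟩
        have := h2 (i.succAbove j)
        rwa [Fin.insertNth_apply_succAbove] at this
      · rintro ⟨h1, h2⟩
        refine ⟨h1, fun j => ?_⟩
        by_cases hj : j = i
        · subst hj
          rw [Fin.insertNth_apply_same]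
          cases c with
          | none => exact h1
          | some c => exact h2 c
        · obtain ⟨j', rfl⟩ := Fin.exists_succAbove_eq hj
          rw [Fin.insertNth_apply_succAbove]
          exact h2 j'
    calc ∑ f ∈ univ.filter (fun f : Fin (k + 1) → V =>
          ¬ Function.Injective (Fin.cons x f : Fin (k + 2) → V)), (CN H x f).card ^ 2
        ≤ ∑ f ∈ univ.image Φ, (CN H x f).card ^ 2 := sum_le_sum_of_subset hsub
      _ ≤ ∑ p, (CN H x (Φ p)).card ^ 2 :=
          sum_image_le_of_nonneg (fun _ _ => Nat.zero_le _)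
      _ = ∑ p : Fin (k + 1) × Option (Fin k) × (Fin k → V), (CN H x p.2.2).card ^ 2 :=
          sum_congr rfl (fun p _ => by rw [hCN])
      _ = _ := by
          rw [Fintype.sum_prod_type]
          simp only [Fintype.sum_prod_type, sum_const, card_univ, Fintype.card_fin,
            Fintype.card_option, smul_eq_mul]
          ring

theorem W_zero (x : V) : W H x 0 = (H.degree x) ^ 2 := by
  rw [W_eq]
  simp [sq]

/-- the fourth moment of the closed walks -/
theorem nw_four (x : V) : nw H 4 x x = W H x 1 := by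
  classical
  have h1 : ∀ u v : V, ((H.adjMatrix ℝ) ^ 2) u v = (cod H u v : ℝ) := by
    intro u v
    rw [sq, Matrix.mul_apply]
    unfold cod
    rw [card_filter]
    push_cast
    apply sum_congr rfl
    intro y _
    rw [SimpleGraph.adjMatrix_apply, SimpleGraph.adjMatrix_apply]
    by_cases h : H.Adj u y
    · by_cases h' : H.Adj v y
      · simp [h, h', h'.symm]
      · have : ¬ H.Adj y v := fun q => h' q.symm
        simp [h, h', this]
    · simp [h]
  have h2 : ((H.adjMatrix ℝ) ^ 4) x x = (nw H 4 x x : ℝ) := nw_eq H 4 x x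
  have h3 : ((H.adjMatrix ℝ) ^ 4) x x =
      ∑ u, ∑ v, (H.adjMatrix ℝ) x u * ((H.adjMatrix ℝ) ^ 2) u v * (H.adjMatrix ℝ) v x := by
    have : (H.adjMatrix ℝ) ^ 4 = (H.adjMatrix ℝ) * ((H.adjMatrix ℝ) ^ 2 * (H.adjMatrix ℝ)) := by
      rw [← pow_succ, ← pow_succ']
    rw [this, Matrix.mul_apply]
    apply sum_congr rfl
    intro u _
    rw [Matrix.mul_apply, mul_sum]
    apply sum_congr rfl
    intro v _
    ring
  have h4 : ((nw H 4 x x : ℕ) : ℝ) = ((W H x 1 : ℕ) : ℝ) := by
    rw [← h2, h3, W_eq]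
    push_cast
    simp only [pow_one]
    rw [← sum_subset (subset_univ (H.neighborFinset x))]
    · apply sum_congr rfl
      intro u hu
      rw [SimpleGraph.mem_neighborFinset] at hu
      rw [← sum_subset (subset_univ (H.neighborFinset x))]
      · apply sum_congr rfl
        intro v hv
        rw [SimpleGraph.mem_neighborFinset] at hv
        rw [h1, SimpleGraph.adjMatrix_apply, SimpleGraph.adjMatrix_apply, if_pos hu,
          if_pos hv.symm]
        ring
      · intro v _ hv
        rw [SimpleGraph.mem_neighborFinset] at hv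
        have h0 : (H.adjMatrix ℝ) v x = 0 := by
          rw [SimpleGraph.adjMatrix_apply, if_neg (fun q => hv q.symm)]
        rw [h0, mul_zero]
    · intro u _ hu
      rw [SimpleGraph.mem_neighborFinset] at hu
      apply sum_eq_zero
      intro v _
      rw [SimpleGraph.adjMatrix_apply, if_neg hu]
      ring
  exact_mod_cast h4

/-- a Young inequality -/
theorem young_up (c δ : ℝ) (hc : 0 ≤ c) (hδ : 0 < δ) (k : ℕ) :
    c ^ k ≤ δ * c ^ (k + 1) + (δ⁻¹) ^ k := by
  by_cases h : c ≤ δ⁻¹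
  · have := pow_le_pow_left₀ hc h k
    have h2 : 0 ≤ δ * c ^ (k + 1) := by positivity
    linarith
  · push Not at h
    have h1 : 1 ≤ δ * c := by
      rw [inv_lt_iff_one_lt_mul₀ hδ] at h
      linarith
    have h2 : c ^ k ≤ δ * c ^ (k + 1) := by
      calc c ^ k = 1 * c ^ k := by ring
        _ ≤ (δ * c) * c ^ k := mul_le_mul_of_nonneg_right h1 (by positivity)
        _ = _ := by ring
    have h3 : 0 ≤ (δ⁻¹) ^ k := by positivity
    linarith

theorem young_down (c l : ℝ) (hc : 0 ≤ c) (hl : 0 < l) (k : ℕ) :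
    c ≤ l + c ^ (k + 1) / l ^ k := by
  by_cases h : c ≤ l
  · have : 0 ≤ c ^ (k + 1) / l ^ k := by positivity
    linarith
  · push Not at h
    have h1 : c ≤ c ^ (k + 1) / l ^ k := by
      rw [le_div_iff₀ (by positivity), pow_succ']
      apply mul_le_mul_of_nonneg_left _ hc
      exact pow_le_pow_left₀ hl.le h.le k
    linarith

theorem W_top {s t : ℕ} (k : ℕ) (hs : s = k + 2) (ht : 1 ≤ t) (hH : NoST H.Adj s t) (x : V) :
    (W H x (k + 1) : ℝ) ≤ 2 * (t : ℝ) ^ 2 * (Fintype.card V : ℝ) ^ (k + 1) +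
      (2 * ((k : ℝ) + 1) ^ 2) ^ (k + 1) * (H.degree x : ℝ) ^ 2 := by
  have h1 := W_step H k hs ht hH x
  have h2 : (W H x (k + 1) : ℝ) ≤
      ((t - 1 : ℕ) : ℝ) ^ 2 * (Fintype.card V : ℝ) ^ (k + 1) + ((k : ℝ) + 1) ^ 2 * W H x k := by
    exact_mod_cast h1
  have h3 : ((t - 1 : ℕ) : ℝ) ≤ t := by
    have : t - 1 ≤ t := by omega
    exact_mod_cast this
  have h4 : ((t - 1 : ℕ) : ℝ) ^ 2 ≤ (t : ℝ) ^ 2 := pow_le_pow_left₀ (Nat.cast_nonneg _) h3 2
  set B : ℝ := ((k : ℝ) + 1) ^ 2 with hB
  have hB0 : 0 < B := by positivity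
  have h5 : (W H x k : ℝ) ≤ (2 * B)⁻¹ * W H x (k + 1) + (2 * B) ^ k * (H.degree x : ℝ) ^ 2 := by
    rw [W_eq, W_eq]
    push_cast
    rw [mul_sum]
    have e : (2 * B) ^ k * (H.degree x : ℝ) ^ 2 =
        ∑ u ∈ H.neighborFinset x, ∑ v ∈ H.neighborFinset x, (2 * B) ^ k := by
      rw [sum_const, sum_const, nsmul_eq_mul, nsmul_eq_mul, H.card_neighborFinset_eq_degree]
      ring
    rw [e, ← sum_add_distrib]
    apply sum_le_sum
    intro u _
    rw [mul_sum, ← sum_add_distrib]
    apply sum_le_sum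
    intro v _
    have := young_up (cod H u v : ℝ) (2 * B)⁻¹ (Nat.cast_nonneg _) (by positivity) k
    rwa [inv_inv] at this
  have h6 : B * (W H x k : ℝ) ≤ (1 / 2) * W H x (k + 1) +
      B * ((2 * B) ^ k * (H.degree x : ℝ) ^ 2) := by
    calc B * (W H x k : ℝ) ≤ B * ((2 * B)⁻¹ * W H x (k + 1) +
          (2 * B) ^ k * (H.degree x : ℝ) ^ 2) := mul_le_mul_of_nonneg_left h5 hB0.le
      _ = _ := by field_simp
  have h7 : ((t - 1 : ℕ) : ℝ) ^ 2 * (Fintype.card V : ℝ) ^ (k + 1) ≤
      (t : ℝ) ^ 2 * (Fintype.card V : ℝ) ^ (k + 1) := mul_le_mul_of_nonneg_right h4 (by positivity)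
  have e8 : (2 * B) ^ (k + 1) * (H.degree x : ℝ) ^ 2 =
      2 * (B * ((2 * B) ^ k * (H.degree x : ℝ) ^ 2)) := by ring
  rw [e8]
  linarith

/-- the trace bound, at the scale `r ^ s = n` -/
theorem W_one_le {s t : ℕ} (k : ℕ) (hs : s = k + 2) (ht : 1 ≤ t) (hH : NoST H.Adj s t) (K r : ℝ)
    (hK : 0 < K) (hr : 1 ≤ r) (hrn : r ^ (k + 2) = (Fintype.card V : ℝ)) (x : V)
    (hdeg : (H.degree x : ℝ) ≤ K * r ^ (k + 1)) :
    (W H x 1 : ℝ) ≤ (K ^ 2 + 2 * (t : ℝ) ^ 2 + (2 * ((k : ℝ) + 1) ^ 2) ^ (k + 1) * K ^ 2) *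
      r ^ (3 * k + 2) := by
  have hr0 : 0 < r := by linarith
  have htop := W_top H k hs ht hH x
  have h1 : (W H x 1 : ℝ) ≤ r ^ k * (H.degree x : ℝ) ^ 2 + W H x (k + 1) / (r ^ k) ^ k := by
    rw [W_eq, W_eq]
    push_cast
    rw [sum_div]
    have e : r ^ k * (H.degree x : ℝ) ^ 2 =
        ∑ u ∈ H.neighborFinset x, ∑ v ∈ H.neighborFinset x, r ^ k := by
      rw [sum_const, sum_const, nsmul_eq_mul, nsmul_eq_mul, H.card_neighborFinset_eq_degree]
      ring
    rw [e, ← sum_add_distrib]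
    apply sum_le_sum
    intro u _
    rw [sum_div, ← sum_add_distrib]
    apply sum_le_sum
    intro v _
    rw [pow_one]
    exact young_down _ _ (Nat.cast_nonneg _) (by positivity) k
  have hD2 : (H.degree x : ℝ) ^ 2 ≤ K ^ 2 * r ^ (2 * k + 2) := by
    calc (H.degree x : ℝ) ^ 2 ≤ (K * r ^ (k + 1)) ^ 2 := pow_le_pow_left₀ (Nat.cast_nonneg _) hdeg 2
      _ = _ := by rw [mul_pow, ← pow_mul]; congr 2; ring
  have h2 : r ^ k * (H.degree x : ℝ) ^ 2 ≤ K ^ 2 * r ^ (3 * k + 2) := by
    calc r ^ k * (H.degree x : ℝ) ^ 2 ≤ r ^ k * (K ^ 2 * r ^ (2 * k + 2)) :=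
          mul_le_mul_of_nonneg_left hD2 (by positivity)
      _ = K ^ 2 * (r ^ k * r ^ (2 * k + 2)) := by ring
      _ = _ := by rw [← pow_add]; congr 2; ring
  have h3 : (Fintype.card V : ℝ) ^ (k + 1) = r ^ (3 * k + 2) * (r ^ k) ^ k := by
    rw [← hrn, ← pow_mul, ← pow_mul, ← pow_add]
    congr 1
    ring
  have h4 : W H x (k + 1) / (r ^ k) ^ k ≤ 2 * (t : ℝ) ^ 2 * r ^ (3 * k + 2) +
      (2 * ((k : ℝ) + 1) ^ 2) ^ (k + 1) * K ^ 2 * r ^ (3 * k + 2) := by
    rw [div_le_iff₀ (by positivity)]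
    refine htop.trans ?_
    rw [h3, add_mul]
    apply add_le_add
    · apply le_of_eq; ring
    · have h5 : r ^ (2 * k + 2) ≤ r ^ (3 * k + 2) * (r ^ k) ^ k := by
        rw [← pow_mul, ← pow_add]
        apply pow_le_pow_right₀ hr
        have : 0 ≤ k * k := Nat.zero_le _
        omega
      calc (2 * ((k : ℝ) + 1) ^ 2) ^ (k + 1) * (H.degree x : ℝ) ^ 2
          ≤ (2 * ((k : ℝ) + 1) ^ 2) ^ (k + 1) * (K ^ 2 * r ^ (2 * k + 2)) :=
            mul_le_mul_of_nonneg_left hD2 (by positivity)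
        _ ≤ (2 * ((k : ℝ) + 1) ^ 2) ^ (k + 1) * (K ^ 2 * (r ^ (3 * k + 2) * (r ^ k) ^ k)) := by
            apply mul_le_mul_of_nonneg_left _ (by positivity)
            exact mul_le_mul_of_nonneg_left h5 (by positivity)
        _ = _ := by ring
  calc (W H x 1 : ℝ) ≤ _ := h1
    _ ≤ K ^ 2 * r ^ (3 * k + 2) + (2 * (t : ℝ) ^ 2 * r ^ (3 * k + 2) +
      (2 * ((k : ℝ) + 1) ^ 2) ^ (k + 1) * K ^ 2 * r ^ (3 * k + 2)) := add_le_add h2 h4
    _ = _ := by ring

end Pool.Agent.Q271.KT
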